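import Pool.Agent.W699.ME.PK2b

/-! Project ME, part PK2: the flux through the test functions at one time. -/

open MeasureTheory Set Metric
open scoped ContDiff

namespace Pool.Agent.W699.ME

open H459R3.NS W221.NS
open Pool.Agent.W386.MD (cd_comp cd_pd cont_comp cont_nsq cont_adv nsq_nonneg abs_comp_le adv_le cs
  iob hcs pd_zero adv_zero flux wt lap_sub' adv_sum int_sum L4_mono A2_mono sq_mono rr_pos rr_anti)

theorem t_PK2 (hR : S_RIESZ) (hA : S_HARM) (hW : S_WB) (h1 : S_PK1b) : S_PK2 := by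
  obtain ⟨C₀, hC₀, hR⟩ := hR
  obtain ⟨CA, hCA, hA⟩ := hA
  obtain ⟨CU, hCU, hU⟩ := hW
  obtain ⟨C₁, hC₁, h1⟩ := h1 C₀ hC₀
  intro M hM
  have hM0 : 0 < M := by linarith
  obtain ⟨D, hD⟩ : ∃ D, D = √(CA * ((1 / 16) ^ 5)⁻¹ * (2 * (1 + C₀ * (3 * CU + 243) ^ 2))) :=
    ⟨_, rfl⟩
  have hD0 : 0 ≤ D := hD ▸ Real.sqrt_nonneg _
  refine ⟨(18 * M + 62208 * C₁ * M) + 15 * (M * 16 ^ 4) * (CU + 2) + 90 * (M * 8 ^ 4)
    + 6 * D * √M, by positivity, ?_⟩
  intro v W N P G hS a ha K R φ hR0 hφ hpos hout hint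
  have ha' : dist a 0 < 3 / 8 := mem_ball.1 ha
  have hv := hS.sv
  have hWs := hS.sW
  have hG : 0 ≤ G := by
    refine le_trans ?_ hS.grad
    unfold B2
    exact integral_nonneg (fun z => Finset.sum_nonneg (fun _ _ => Finset.sum_nonneg
      (fun _ _ => sq_nonneg _)))
  obtain ⟨-, -, hL, -⟩ := hU v W N P G hS
  have hr2 : rr 2 = 1 / 4 := by norm_num [rr]
  have binc : ∀ k ∈ K, ball a (rr k) ⊆ ball a (rr 2) := fun k hk =>
    ball_subset_ball (rr_anti (hφ k hk).1)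
  have b34 : ball a (rr 2) ⊆ ball (0 : V) (3 / 4) := by
    apply ball_subset_ball'
    rw [hr2]
    linarith
  have b1 : ball a (rr 2) ⊆ ball (0 : V) 1 := by
    apply ball_subset_ball'
    rw [hr2]
    linarith
  -- the shifted field
  obtain ⟨c, hc⟩ : ∃ c : V, c = fun i => v a i - W a i := ⟨_, rfl⟩
  obtain ⟨v', hv'e⟩ : ∃ v' : V → V, v' = fun y i => v y i - c i := ⟨_, rfl⟩
  obtain ⟨D', hD'e⟩ : ∃ D' : V → V, D' = fun y i => (v y i - W y i) - (v a i - W a i) := ⟨_, rfl⟩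
  have hv' : ContDiff ℝ ∞ v' := by
    rw [hv'e]
    exact contDiff_pi.2 (fun i => (cd_comp hv i).sub contDiff_const)
  have hD' : ContDiff ℝ ∞ D' := by
    rw [hD'e]
    exact contDiff_pi.2 (fun i => ((cd_comp hv i).sub (cd_comp hWs i)).sub contDiff_const)
  have hsum : ∀ z i, v' z i = W z i + D' z i := by
    intro z i
    rw [hv'e, hD'e, hc]
    ring
  have hnD : ∀ j, 2 ≤ j → ∀ z ∈ ball a (rr j), nsq D' z ≤ 27 * G * rr j ^ 2 := by
    intro j hj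
    rw [hD'e]
    exact nsqD hv hWs hG (rr_pos j) ((ball_subset_ball (rr_anti hj)).trans b1) hS.gD
  have hsD : ∀ j, 2 ≤ j → ∀ z ∈ ball a (rr j), √(nsq D' z) ≤ 6 * √G * rr j := by
    intro j hj z hz
    apply Real.sqrt_le_iff.2 ⟨by have := rr_pos j; positivity, (hnD j hj z hz).trans ?_⟩
    have e : (6 * √G * rr j) ^ 2 = 36 * √G ^ 2 * rr j ^ 2 := by ring
    rw [e, Real.sq_sqrt hG]
    have : 0 ≤ G * rr j ^ 2 := by positivity
    linarith
  have hL' : ∀ j, 2 ≤ j → √(L4 a (rr j) v') ≤ 3 * √(L4 a (rr j) W)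
      + 243 * G * (rr j ^ 2 * √(rr j ^ 3)) := by
    intro j hj
    have h2 := L4bd hv' hWs (a := a) (rr_pos j) (E := 27 * G * rr j ^ 2) (by positivity) (by
      intro z hz
      have h3 := hnD j hj z hz
      have h4 : nsq v' z ≤ 2 * nsq W z + 2 * nsq D' z := by
        unfold nsq
        rw [Finset.mul_sum, Finset.mul_sum, ← Finset.sum_add_distrib]
        apply Finset.sum_le_sum
        intro i _
        rw [hsum]
        nlinarith [sq_nonneg (W z i - D' z i)]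
      linarith)
    refine h2.trans (le_of_eq ?_)
    ring
  obtain ⟨Φ, hΦe⟩ : ∃ Φ : V → ℝ, Φ = fun y => ∑ k ∈ K, φ k y := ⟨_, rfl⟩
  obtain ⟨Ψ, hΨe⟩ : ∃ Ψ : V → ℝ, Ψ = fun y => ∑ k ∈ K.filter (fun k => 5 ≤ k), φ k y := ⟨_, rfl⟩
  have hcd : ∀ k ∈ K, ContDiff ℝ ∞ (φ k) := fun k hk => (hφ k hk).2.2.1
  have hsp : ∀ k ∈ K, ∀ z ∉ ball a (rr k), φ k z = 0 := fun k hk => (hφ k hk).2.2.2.1
  have h8 : ∀ k ∈ K, ∀ z, |φ k z| ≤ M * 8 ^ k := fun k hk => (hφ k hk).2.2.2.2.1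
  have h8' : ∀ k ∈ K, ∀ z, |φ k z| ≤ M * 8 ^ k * (2 ^ k * R) := fun k hk =>
    (hφ k hk).2.2.2.2.2.1
  have h16 : ∀ k ∈ K, ∀ z i, |pd i (φ k) z| ≤ M * 16 ^ k := fun k hk => (hφ k hk).2.2.2.2.2.2
  have hΦ : ContDiff ℝ ∞ Φ := hΦe ▸ ContDiff.sum (fun k hk => hcd k hk)
  have hΨ : ContDiff ℝ ∞ Ψ := hΨe ▸ ContDiff.sum (fun k hk =>
    hcd k (Finset.mem_of_mem_filter k hk))
  have hΦ0 : ∀ z, 0 ≤ Φ z := fun z => by rw [hΦe]; exact hpos z
  have hΨ0 : ∀ z, |Ψ z| ≤ Φ z := fun z => by rw [hΦe, hΨe]; exact hout z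
  have hΦz : ∀ z ∉ ball a (rr 2), Φ z = 0 := by
    intro z hz
    rw [hΦe]
    exact Finset.sum_eq_zero (fun k hk => hsp k hk z (fun h => hz (binc k hk h)))
  have hΨz : ∀ z ∉ ball a (rr 5), Ψ z = 0 := by
    intro z hz
    rw [hΨe]
    refine Finset.sum_eq_zero (fun k hk => ?_)
    have hk' := Finset.mem_filter.1 hk
    exact hsp k hk'.1 z (fun h => hz (ball_subset_ball (rr_anti hk'.2) h))
  have hΦc : HasCompactSupport Φ := hcs hΦz
  have hΨc : HasCompactSupport Ψ := hcs hΨz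
  have hint' : ∫ z, Φ z ≤ M := by rw [hΦe]; exact hint
  obtain ⟨X, hX⟩ : ∃ X, X = √(∫ z, nsq W z * Φ z) := ⟨_, rfl⟩
  obtain ⟨A₂, hA₂e⟩ : ∃ A, A = A2 0 (3 / 4) W := ⟨_, rfl⟩
  obtain ⟨A, hAe⟩ : ∃ A, A = √(A2 0 (3 / 4) W) := ⟨_, rfl⟩
  have hX0 : 0 ≤ X := hX ▸ Real.sqrt_nonneg _
  have hA0 : 0 ≤ A := hAe ▸ Real.sqrt_nonneg _
  have hA₂0 : 0 ≤ A₂ := by
    rw [hA₂e]
    exact integral_nonneg (fun z => nsq_nonneg W z)
  -- the potentials
  choose Q hQ using fun j : ℕ => hR v' hv' a (rr j) (rr_pos j)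
  have hrr3 : rr 3 = 1 / 8 := by norm_num [rr]
  -- the harmonic part of the pressure
  have T4 : |∫ z, (P z - Q 3 z) * adv W Ψ z| ≤ 3 * (D * G) * (√M * X) := by
    have hPQ : ContDiff ℝ ∞ (fun y => P y - Q 3 y) := hS.sP.sub (hQ 3).1
    rw [ibp2 hWs hPQ hΨ hΨc (by
      intro x hx
      apply hS.divW x
      by_contra h
      exact hx (hΨz x (fun h' => h (b1 (ball_subset_ball (rr_anti (by norm_num)) h'))))),
      abs_neg, hX]
    apply wt hWs hΦ.continuous hΦ0 hΦc hΨ.continuous hΨ0 (cont_adv hWs hPQ) (by positivity) _ hint'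
    intro z hz
    apply adv_le
    intro i
    rw [hD]
    apply hessb hS hC₀ hCA hG (by positivity) hA ha _ _ (hQ 3).1 (hQ 3).2.1 (hQ 3).2.2
    · by_contra h
      exact hz (hΨz z h)
    · have h2 := hL' 3 (by norm_num)
      have h3 : √(L4 a (rr 3) W) ≤ CU * G :=
        (Real.sqrt_le_sqrt (L4_mono hWs
          ((ball_subset_ball (rr_anti (by norm_num))).trans b1))).trans hL
      have h4 : 243 * G * (rr 3 ^ 2 * √(rr 3 ^ 3)) ≤ 243 * G * 1 :=
        mul_le_mul_of_nonneg_left rr_small (by positivity)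
      calc √(L4 a (rr 3) v') ≤ 3 * √(L4 a (rr 3) W) + 243 * G * (rr 3 ^ 2 * √(rr 3 ^ 3)) := h2
        _ ≤ 3 * (CU * G) + 243 * G * 1 := by linarith
        _ = (3 * CU + 243) * G := by ring
    · intro x hx
      rw [hv'e]
      apply ddq_shift_loc hv
      have hx' : x ∈ ball (0 : V) 1 := by
        apply b1
        exact ball_subset_ball (by rw [hr2]; norm_num) hx
      filter_upwards [isOpen_ball.mem_nhds hx'] with y hy
      exact hS.divv y hy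
  -- the sums
  have hcK : ∀ k ∈ K, HasCompactSupport (φ k) := fun k hk => hcs (hsp k hk)
  have hcard : (K.filter (fun k => ¬ 5 ≤ k)).card ≤ 5 := by
    have : K.filter (fun k => ¬ 5 ≤ k) ⊆ Finset.range 5 := by
      intro k hk
      have := (Finset.mem_filter.1 hk).2
      exact Finset.mem_range.2 (by omega)
    exact (Finset.card_le_card this).trans (by simp)
  have hcard' : ((K.filter (fun k => ¬ 5 ≤ k)).card : ℝ) ≤ 5 := by exact_mod_cast hcard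
  have lowsum : ∀ (F : ℕ → ℝ) (B : ℝ), 0 ≤ B → (∀ k ∈ K, ¬ 5 ≤ k → |F k| ≤ B) →
      |∑ k ∈ K.filter (fun k => ¬ 5 ≤ k), F k| ≤ 5 * B := by
    intro F B hB h2
    calc |∑ k ∈ K.filter (fun k => ¬ 5 ≤ k), F k|
        ≤ ∑ k ∈ K.filter (fun k => ¬ 5 ≤ k), |F k| := Finset.abs_sum_le_sum_abs _ _
      _ ≤ (K.filter (fun k => ¬ 5 ≤ k)).card • B :=
          Finset.sum_le_card_nsmul _ _ _ (fun k hk => h2 k (Finset.mem_filter.1 hk).1
            (Finset.mem_filter.1 hk).2)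
      _ = (K.filter (fun k => ¬ 5 ≤ k)).card * B := by rw [nsmul_eq_mul]
      _ ≤ 5 * B := mul_le_mul_of_nonneg_right hcard' hB
  -- generic bound for the large scales
  have big : ∀ f : V → ℝ, Continuous f → ∀ B : ℝ, √(∫ z in ball (0 : V) 1, f z ^ 2) ≤ B →
      ∀ k ∈ K, ¬ 5 ≤ k → |∫ z, f z * adv W (φ k) z| ≤ 3 * (M * 16 ^ 4) * (B * A) := by
    intro f hf B hB k hk hk5
    have hB0 : 0 ≤ B := (Real.sqrt_nonneg _).trans hB
    refine (flux hWs hf (hcd k hk) (rr_pos k) (hsp k hk) (h16 k hk)).trans ?_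
    have e1 : √(∫ z in ball a (rr k), f z ^ 2) ≤ B :=
      (Real.sqrt_le_sqrt (sq_mono hf ((binc k hk).trans b1))).trans hB
    have e2 : √(A2 a (rr k) W) ≤ A := by
      rw [hAe]
      exact Real.sqrt_le_sqrt (A2_mono hWs ((binc k hk).trans b34))
    have e3 : (16 : ℝ) ^ k ≤ 16 ^ 4 := pow_le_pow_right₀ (by norm_num) (by omega)
    have e4 : 3 * (M * 16 ^ k) ≤ 3 * (M * 16 ^ 4) := by nlinarith
    exact mul_le_mul e4 (mul_le_mul e1 e2 (Real.sqrt_nonneg _) hB0)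
      (mul_nonneg (Real.sqrt_nonneg _) (Real.sqrt_nonneg _)) (by positivity)
  -- the transport by the remainder
  have trD : ∀ k ∈ K, |∫ z, nsq W z * adv D' (φ k) z|
      ≤ 18 * M * (√G * (8 ^ k * A2 a (rr k) W)) := by
    intro k hk
    have h2 := fluxD hD' hWs (hcd k hk) (rr_pos k) (hsp k hk) (h16 k hk) (hsD k (hφ k hk).1)
    refine h2.trans (le_of_eq ?_)
    rw [← num1 k]
    ring
  have iadv : ∀ {u : V → V}, ContDiff ℝ ∞ u → ∀ {f g : V → ℝ}, Continuous f → ContDiff ℝ ∞ g →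
      ∀ {b : V} {ρ : ℝ}, 0 < ρ → (∀ z ∉ ball b ρ, g z = 0) →
      Integrable (fun z => f z * adv u g z) := by
    intro u hu f g hf hg b ρ hρ h0
    exact (hf.mul (cont_adv hu hg)).integrable_of_hasCompactSupport
      (hcs (adv_zero u hg hρ h0)).mul_left
  have spl : ∀ k ∈ K, ∫ z, nsq W z * adv v' (φ k) z
      = (∫ z, nsq W z * adv W (φ k) z) + ∫ z, nsq W z * adv D' (φ k) z := by
    intro k hk
    rw [← integral_add (iadv hWs (cont_nsq hWs) (hcd k hk) (rr_pos k) (hsp k hk))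
      (iadv hD' (cont_nsq hWs) (hcd k hk) (rr_pos k) (hsp k hk))]
    congr 1
    funext z
    unfold adv
    rw [← mul_add, ← Finset.sum_add_distrib]
    congr 1
    exact Finset.sum_congr rfl (fun j _ => by rw [hsum]; ring)
  obtain ⟨S, hSe⟩ : ∃ S, S = ∑ k ∈ K.filter (fun k => 5 ≤ k), sk G R a W k := ⟨_, rfl⟩
  have hPS : ∀ k, 16 ^ k * √(L4 a (rr (k - 2)) W) ≤ PS a W k := by
    intro k
    unfold PS
    have : 0 ≤ ∑ j ∈ Finset.Ico 3 (k - 2), √(32 ^ j) * √(8 ^ k) * √(L4 a (rr j) W) :=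
      Finset.sum_nonneg (fun _ _ => by positivity)
    linarith
  have hA2n : ∀ k, 0 ≤ A2 a (rr k) W := fun k => integral_nonneg (fun z => nsq_nonneg W z)
  have hPS0 : ∀ k, 0 ≤ √(A2 a (rr k) W) * PS a W k := fun k =>
    mul_nonneg (Real.sqrt_nonneg _) (le_trans (by positivity) (hPS k))
  have hY0 : ∀ k, 0 ≤ √G * (8 ^ k * A2 a (rr k) W) := fun k => by
    have := hA2n k
    positivity
  have hZ0 : ∀ k, 0 ≤ G * (√(A2 a (rr k) W) * (√(2 ^ k) + √(8 ^ k) * (2 ^ k * R))) := fun k => by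
    positivity
  have hsk0 : ∀ k, 0 ≤ sk G R a W k := fun k => by
    unfold sk
    have := hPS0 k
    have := hY0 k
    have := hZ0 k
    linarith
  have hS0 : 0 ≤ S := by
    rw [hSe]
    exact Finset.sum_nonneg (fun k _ => hsk0 k)
  -- small scales, cubic term
  have T1s : |∑ k ∈ K.filter (fun k => 5 ≤ k), ∫ z, nsq W z * adv v' (φ k) z| ≤ 18 * M * S := by
    refine (Finset.abs_sum_le_sum_abs _ _).trans ?_
    rw [hSe, Finset.mul_sum]
    apply Finset.sum_le_sum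
    intro k hk
    have hk' := Finset.mem_filter.1 hk
    have h2 := flux hWs (cont_nsq hWs) (hcd k hk'.1) (rr_pos k) (hsp k hk'.1) (h16 k hk'.1)
    have h3 : √(∫ z in ball a (rr k), nsq W z ^ 2) ≤ √(L4 a (rr (k - 2)) W) :=
      Real.sqrt_le_sqrt (L4_mono hWs (ball_subset_ball (rr_anti (by omega))))
    have h4 : |∫ z, nsq W z * adv W (φ k) z| ≤ 3 * M * (√(A2 a (rr k) W) * PS a W k) := by
      calc |∫ z, nsq W z * adv W (φ k) z|
          ≤ 3 * (M * 16 ^ k) * (√(∫ z in ball a (rr k), nsq W z ^ 2) * √(A2 a (rr k) W)) := h2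
        _ ≤ 3 * (M * 16 ^ k) * (√(L4 a (rr (k - 2)) W) * √(A2 a (rr k) W)) := by gcongr
        _ = 3 * M * (√(A2 a (rr k) W) * (16 ^ k * √(L4 a (rr (k - 2)) W))) := by ring
        _ ≤ 3 * M * (√(A2 a (rr k) W) * PS a W k) := by
            apply mul_le_mul_of_nonneg_left _ (by positivity)
            exact mul_le_mul_of_nonneg_left (hPS k) (Real.sqrt_nonneg _)
    have h5 := trD k hk'.1
    rw [spl k hk'.1]
    refine (abs_add_le _ _).trans ?_
    have q1 := mul_nonneg hM0.le (hPS0 k)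
    have q2 := mul_nonneg hM0.le (hZ0 k)
    unfold sk
    nlinarith
  -- small scales, pressure
  have T2s : |∑ k ∈ K.filter (fun k => 5 ≤ k), ∫ z, Q 3 z * adv W (φ k) z|
      ≤ 31104 * C₁ * M * S := by
    refine (Finset.abs_sum_le_sum_abs _ _).trans ?_
    rw [hSe, Finset.mul_sum]
    apply Finset.sum_le_sum
    intro k hk
    have hk' := Finset.mem_filter.1 hk
    apply press hC₁ hM0 hG hR0 hWs hk'.2 hL' (hcd k hk'.1).continuous (hsp k hk'.1) (h8 k hk'.1)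
      (h8' k hk'.1)
    exact h1 v' W hv' hWs a Q (fun x hx => hS.divW x (b1 (by rw [hr2]; exact hx))) hQ k hk'.2 M
      (φ k) hM0 (hcd k hk'.1) (hsp k hk'.1) (h16 k hk'.1)
  have split : ∀ u : V → V, ContDiff ℝ ∞ u → ∀ f : V → ℝ, Continuous f → ∫ z, f z * adv u Φ z
      = ∑ k ∈ K.filter (fun k => 5 ≤ k), (∫ z, f z * adv u (φ k) z)
        + ∑ k ∈ K.filter (fun k => ¬ 5 ≤ k), (∫ z, f z * adv u (φ k) z) := by
    intro u hu f hf
    rw [hΦe, int_sum hu K φ hcd hcK hf, Finset.sum_filter_add_sum_filter_not]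
  have splitΨ : ∀ f : V → ℝ, Continuous f → ∫ z, f z * adv W Ψ z
      = ∑ k ∈ K.filter (fun k => 5 ≤ k), (∫ z, f z * adv W (φ k) z) := by
    intro f hf
    rw [hΨe, int_sum hWs _ φ (fun k hk => hcd k (Finset.mem_of_mem_filter k hk))
      (fun k hk => hcK k (Finset.mem_of_mem_filter k hk)) hf]
  -- cubic term
  have T1 : |∫ z, nsq W z * adv v' Φ z| ≤ 18 * M * S
      + 5 * (3 * (M * 16 ^ 4) * (CU * G * A) + 18 * (M * 8 ^ 4) * (√G * A₂)) := by
    rw [split v' hv' _ (cont_nsq hWs)]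
    refine (abs_add_le _ _).trans (add_le_add T1s (lowsum _ _ (by positivity) ?_))
    intro k hk hk5
    rw [spl k hk]
    refine (abs_add_le _ _).trans (add_le_add (big _ (cont_nsq hWs) (CU * G) hL k hk hk5) ?_)
    refine (trD k hk).trans ?_
    have e1 : A2 a (rr k) W ≤ A₂ := by
      rw [hA₂e]
      exact A2_mono hWs ((binc k hk).trans b34)
    have e3 : (8 : ℝ) ^ k ≤ 8 ^ 4 := pow_le_pow_right₀ (by norm_num) (by omega)
    calc 18 * M * (√G * (8 ^ k * A2 a (rr k) W)) ≤ 18 * M * (√G * (8 ^ 4 * A₂)) := by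
          have := hA2n k
          gcongr
      _ = 18 * (M * 8 ^ 4) * (√G * A₂) := by ring
  -- pressure term
  have T2 : |∫ z, P z * adv W Φ z| ≤ 31104 * C₁ * M * S + 3 * (D * G) * (√M * X)
      + 5 * (3 * (M * 16 ^ 4) * (G * A)) := by
    have hPc := hS.sP.continuous
    have hQc := (hQ 3).1.continuous
    have e1 : ∑ k ∈ K.filter (fun k => 5 ≤ k), (∫ z, P z * adv W (φ k) z)
        = ∑ k ∈ K.filter (fun k => 5 ≤ k), (∫ z, Q 3 z * adv W (φ k) z)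
          + ∫ z, (P z - Q 3 z) * adv W Ψ z := by
      have j1 : Integrable (fun z => Q 3 z * adv W Ψ z) := iadv hWs hQc hΨ (rr_pos 5) hΨz
      have j2 : Integrable (fun z => (P z - Q 3 z) * adv W Ψ z) :=
        iadv hWs (f := fun z => P z - Q 3 z) (hPc.sub hQc) hΨ (rr_pos 5) hΨz
      rw [← splitΨ _ hPc, ← splitΨ _ hQc, ← integral_add j1 j2]
      congr 1
      funext z
      ring
    have hn : √(∫ x in ball (0 : V) 1, P x ^ 2) ≤ G := by
      have := Real.sqrt_le_sqrt hS.nP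
      rwa [Real.sqrt_sq hG] at this
    rw [split W hWs _ hPc, e1]
    exact (abs_add_le _ _).trans (add_le_add ((abs_add_le _ _).trans (add_le_add T2s T4))
      (lowsum _ _ (by positivity) (big _ hPc G hn)))
  -- conclusion
  have hg1 : (∫ z, nsq W z * adv (fun y i => v y i - (v a i - W a i))
      (fun y => ∑ k ∈ K, φ k y) z) = ∫ z, nsq W z * adv v' Φ z := by rw [hΦe, hv'e, hc]
  have hg2 : (∫ z, P z * adv W (fun y => ∑ k ∈ K, φ k y) z) = ∫ z, P z * adv W Φ z := by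
    rw [hΦe]
  have hX' : √(∫ z, nsq W z * ∑ k ∈ K, φ k z) = X := by rw [hX, hΦe]
  have hS' : ∑ k ∈ K.filter (fun k => 5 ≤ k), (√(A2 a (rr k) W) * PS a W k
            + √G * (8 ^ k * A2 a (rr k) W)
            + G * (√(A2 a (rr k) W) * (√(2 ^ k) + √(8 ^ k) * (2 ^ k * R)))) = S := by
    rw [hSe]
    rfl
  rw [hg1, hg2, hX', hS', ← hAe, ← hA₂e]
  have tri : |(∫ z, nsq W z * adv v' Φ z) + 2 * (∫ z, P z * adv W Φ z)|
      ≤ |∫ z, nsq W z * adv v' Φ z| + 2 * |∫ z, P z * adv W Φ z| := by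
    refine (abs_add_le _ _).trans (add_le_add le_rfl ?_)
    rw [abs_mul, abs_of_pos (by norm_num : (0 : ℝ) < 2)]
  refine tri.trans ?_
  have hx : 0 ≤ G * A := mul_nonneg hG hA0
  have hy : 0 ≤ √G * A₂ := mul_nonneg (Real.sqrt_nonneg _) hA₂0
  have hw : 0 ≤ G * X := mul_nonneg hG hX0
  obtain ⟨c₁, hc₁⟩ : ∃ c, c = 18 * M + 62208 * C₁ * M := ⟨_, rfl⟩
  obtain ⟨c₂, hc₂⟩ : ∃ c, c = 15 * (M * 16 ^ 4) * (CU + 2) := ⟨_, rfl⟩
  obtain ⟨c₃, hc₃⟩ : ∃ c, c = 90 * (M * 8 ^ 4) := ⟨_, rfl⟩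
  obtain ⟨c₄, hc₄⟩ : ∃ c, c = 6 * D * √M := ⟨_, rfl⟩
  have p₁ : 0 ≤ c₁ := by rw [hc₁]; positivity
  have p₂ : 0 ≤ c₂ := by rw [hc₂]; positivity
  have p₃ : 0 ≤ c₃ := by rw [hc₃]; positivity
  have p₄ : 0 ≤ c₄ := by rw [hc₄]; positivity
  have f₁ : |∫ z, nsq W z * adv v' Φ z| + 2 * |∫ z, P z * adv W Φ z|
      ≤ c₁ * S + c₂ * (G * A) + c₃ * (√G * A₂) + c₄ * (G * X) := by
    rw [hc₁, hc₂, hc₃, hc₄]
    have e : (18 * M + 62208 * C₁ * M) * S + 15 * (M * 16 ^ 4) * (CU + 2) * (G * A)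
        + 90 * (M * 8 ^ 4) * (√G * A₂) + 6 * D * √M * (G * X)
        = (18 * M * S + 5 * (3 * (M * 16 ^ 4) * (CU * G * A) + 18 * (M * 8 ^ 4) * (√G * A₂)))
          + 2 * (31104 * C₁ * M * S + 3 * (D * G) * (√M * X)
            + 5 * (3 * (M * 16 ^ 4) * (G * A))) := by ring
    rw [e]
    linarith
  refine f₁.trans ?_
  rw [← hc₁, ← hc₂, ← hc₃, ← hc₄]
  have q1 := mul_nonneg p₁ hx
  have q2 := mul_nonneg p₁ hy
  have q3 := mul_nonneg p₁ hw
  have q4 := mul_nonneg p₂ hS0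
  have q5 := mul_nonneg p₂ hy
  have q6 := mul_nonneg p₂ hw
  have q7 := mul_nonneg p₃ hS0
  have q8 := mul_nonneg p₃ hx
  have q9 := mul_nonneg p₃ hw
  have q10 := mul_nonneg p₄ hS0
  have q11 := mul_nonneg p₄ hx
  have q12 := mul_nonneg p₄ hy
  have e9 : (c₁ + c₂ + c₃ + c₄) * (G * A + √G * A₂ + G * X + S)
      = (c₁ * (G * A) + c₁ * (√G * A₂) + c₁ * (G * X) + c₁ * S)
        + (c₂ * (G * A) + c₂ * (√G * A₂) + c₂ * (G * X) + c₂ * S)
        + (c₃ * (G * A) + c₃ * (√G * A₂) + c₃ * (G * X) + c₃ * S)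
        + (c₄ * (G * A) + c₄ * (√G * A₂) + c₄ * (G * X) + c₄ * S) := by ring
  rw [e9]
  linarith

end Pool.Agent.W699.ME
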