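import Pool.Agent.W386.MD.PK
import Pool.Agent.W135.MD.FarA
import Pool.Agent.W221.NS.Stm2

/-! Project ME, part PK2: auxiliary lemmas. -/

open MeasureTheory Set Metric
open scoped ContDiff

namespace Pool.Agent.W699.ME

open H459R3.NS W221.NS
open Pool.Agent.W386.MD (cd_comp cd_pd cont_comp cont_nsq cont_adv nsq_nonneg abs_comp_le adv_le cs
  iob hcs pd_zero adv_zero flux wt lap_sub' adv_sum int_sum L4_mono A2_mono sq_mono rr_pos rr_anti)
open Pool.Agent.W135.MD (sm_pd sm_diff pd2_sub pd2_cmul pd_const' pd_sum' pd_comm')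

/-- Galilean invariance of `∂ᵢ∂ⱼ(uᵢuⱼ)` where the divergence vanishes. -/
theorem ddq_shift_loc {u : V → V} (hu : ContDiff ℝ ∞ u) {z : V}
    (hdiv : ∀ᶠ x in nhds z, dv u x = 0) (c : V) :
    ddq (fun y i => u y i - c i) z = ddq u z := by
  have hui : ∀ i, ContDiff ℝ ∞ (fun y => u y i) := fun i => contDiff_pi.1 hu i
  have h1 : ∀ i j, pd i (pd j (fun y => (u y i - c i) * (u y j - c j))) z =
      pd i (pd j (fun y => u y i * u y j)) z - c i * pd i (pd j (fun y => u y j)) z
        - c j * pd i (pd j (fun y => u y i)) z := by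
    intro i j
    have e1 : (fun y => (u y i - c i) * (u y j - c j)) =
        fun y => (u y i * u y j - c i * u y j) - (c j * u y i - c i * c j) := by
      funext y; ring
    have s1 : ContDiff ℝ ∞ (fun y => u y i * u y j) := (hui i).mul (hui j)
    have s2 : ContDiff ℝ ∞ (fun y => c i * u y j) := contDiff_const.mul (hui j)
    have s3 : ContDiff ℝ ∞ (fun y => c j * u y i) := contDiff_const.mul (hui i)
    have s4 : ContDiff ℝ ∞ (fun _ : V => c i * c j) := contDiff_const
    rw [e1, pd2_sub (s1.sub s2) (s3.sub s4), pd2_sub s1 s2, pd2_sub s3 s4, pd2_cmul (hui j),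
      pd2_cmul (hui i)]
    have e2 : pd i (pd j (fun _ : V => c i * c j)) z = 0 := by
      have : pd j (fun _ : V => c i * c j) = fun _ => 0 := by funext y; exact pd_const' _ _ _
      rw [this, pd_const']
    rw [e2]
    ring
  have hz : (fun x => ∑ i, pd i (fun y => u y i) x) =ᶠ[nhds z] fun _ => 0 := hdiv
  have h2 : ∀ i, ∑ j, pd i (pd j (fun y => u y j)) z = 0 := by
    intro i
    have := pd_sum' (s := Finset.univ) (f := fun j => pd j (fun y => u y j))
      (fun j _ => sm_diff (sm_pd (hui j) j)) i z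
    rw [← this]
    unfold pd at hz ⊢
    rw [hz.fderiv_eq]
    simp
  have h3 : ∀ j, ∑ i, pd i (pd j (fun y => u y i)) z = 0 := by
    intro j
    rw [← h2 j]
    exact Finset.sum_congr rfl fun i _ => pd_comm' (hui i) i j z
  unfold ddq
  simp_rw [h1]
  simp only [Finset.sum_sub_distrib]
  have e3 : ∑ i, ∑ j, c i * pd i (pd j (fun y => u y j)) z = 0 := by
    simp_rw [← Finset.mul_sum, h2]
    simp
  have e4 : ∑ i, ∑ j, c j * pd i (pd j (fun y => u y i)) z = 0 := by
    rw [Finset.sum_comm]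
    simp_rw [← Finset.mul_sum, h3]
    simp
  rw [e3, e4]
  ring

/-- Integration by parts; the field has to be free of divergence on the support of `g` only. -/
lemma ibp2 {v : V → V} (hv : ContDiff ℝ ∞ v)
    {f g : V → ℝ} (hf : ContDiff ℝ ∞ f) (hg : ContDiff ℝ ∞ g) (hc : HasCompactSupport g)
    (hdiv : ∀ x, g x ≠ 0 → dv v x = 0) :
    ∫ z, f z * adv v g z = -∫ z, g z * adv v f z := by
  have hfv : ∀ j, ContDiff ℝ ∞ (fun y => f y * v y j) := fun j => hf.mul (cd_comp hv j)
  have hcp : ∀ j, HasCompactSupport (pd j g) := by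
    intro j
    exact hc.fderiv_apply ℝ _
  have e1 : ∀ j, ∫ z, (f z * v z j) * pd j g z = -∫ z, pd j (fun y => f y * v y j) z * g z := by
    intro j
    unfold pd
    apply integral_mul_fderiv_eq_neg_fderiv_mul_of_integrable
    · exact ((cd_pd (hfv j) j).continuous.mul hg.continuous).integrable_of_hasCompactSupport
        hc.mul_left
    · exact ((hfv j).continuous.mul (cd_pd hg j).continuous).integrable_of_hasCompactSupport
        (hcp j).mul_left
    · exact ((hfv j).continuous.mul hg.continuous).integrable_of_hasCompactSupport hc.mul_left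
    · exact fun x _ => (hfv j).differentiable (by simp) x
    · exact fun x _ => hg.differentiable (by simp) x
  have e2 : ∀ j z, pd j (fun y => f y * v y j) z = pd j f z * v z j
      + f z * pd j (fun y => v y j) z := by
    intro j z
    unfold pd
    have h1 : DifferentiableAt ℝ f z := hf.differentiable (by simp) z
    have h2 : DifferentiableAt ℝ (fun y => v y j) z := (cd_comp hv j).differentiable (by simp) z
    rw [fderiv_fun_mul h1 h2]
    simp
    ring
  have e3 : ∫ z, f z * adv v g z = ∑ j, ∫ z, (f z * v z j) * pd j g z := by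
    rw [← integral_finsetSum]
    · congr 1
      funext z
      unfold adv
      rw [Finset.mul_sum]
      exact Finset.sum_congr rfl (fun j _ => by ring)
    · intro j _
      exact ((hfv j).continuous.mul (cd_pd hg j).continuous).integrable_of_hasCompactSupport
        (hcp j).mul_left
  rw [e3, Finset.sum_congr rfl (fun j _ => e1 j), Finset.sum_neg_distrib, ← integral_finsetSum]
  · congr 2
    funext z
    have : ∑ j, pd j (fun y => f y * v y j) z * g z
        = g z * adv v f z + f z * (g z * dv v z) := by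
      unfold adv dv
      rw [Finset.mul_sum, Finset.mul_sum, Finset.mul_sum, ← Finset.sum_add_distrib]
      exact Finset.sum_congr rfl (fun j _ => by rw [e2]; ring)
    have h0 : g z * dv v z = 0 := by
      by_cases h : g z = 0
      · rw [h, zero_mul]
      · rw [hdiv z h, mul_zero]
    rw [this, h0, mul_zero, add_zero]
  · intro j _
    exact ((cd_pd (hfv j) j).continuous.mul hg.continuous).integrable_of_hasCompactSupport
        hc.mul_left

/-- The operator norm of the derivative. -/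
lemma fd_norm {f : V → ℝ} {x : V} {B : ℝ} (h : ∀ j, |pd j f x| ≤ B) : ‖fderiv ℝ f x‖ ≤ 3 * B := by
  have hB : 0 ≤ B := (abs_nonneg _).trans (h 0)
  apply ContinuousLinearMap.opNorm_le_bound _ (by positivity)
  intro w
  have hw : w = ∑ j, w j • (Pi.single j (1 : ℝ) : V) := by
    ext i
    simp [Finset.sum_apply, Pi.single_apply]
  have e : fderiv ℝ f x w = ∑ j, w j * pd j f x := by
    conv_lhs => rw [hw]
    rw [map_sum]
    refine Finset.sum_congr rfl (fun j _ => ?_)
    rw [map_smul]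
    rfl
  rw [e, Real.norm_eq_abs]
  calc |∑ j, w j * pd j f x| ≤ ∑ j, |w j * pd j f x| := Finset.abs_sum_le_sum_abs _ _
    _ ≤ ∑ _j : Fin 3, ‖w‖ * B := by
        apply Finset.sum_le_sum
        intro j _
        rw [abs_mul]
        exact mul_le_mul (norm_le_pi_norm w j) (h j) (abs_nonneg _) (norm_nonneg _)
    _ = 3 * B * ‖w‖ := by simp; ring

lemma Dbd {D : V → ℝ} (hD : ContDiff ℝ ∞ D) {B : ℝ} {a : V} {ρ : ℝ} (hρ : 0 < ρ)
    (hg : ∀ z ∈ ball a ρ, ∀ j, |pd j D z| ≤ B) : ∀ z ∈ ball a ρ, |D z - D a| ≤ 3 * B * ρ := by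
  intro z hz
  have hB : 0 ≤ B := (abs_nonneg _).trans (hg a (mem_ball_self hρ) 0)
  have h := Convex.norm_image_sub_le_of_norm_fderiv_le (𝕜 := ℝ) (f := D) (C := 3 * B)
    (s := ball a ρ) (x := a) (y := z)
    (fun x _ => hD.differentiable (by simp) x) (fun x hx => fd_norm (hg x hx)) (convex_ball a ρ)
    (mem_ball_self hρ) hz
  rw [Real.norm_eq_abs] at h
  refine h.trans (mul_le_mul_of_nonneg_left ?_ (by positivity))
  rw [← dist_eq_norm]
  exact (mem_ball.1 hz).le

/-- The remainder after the shift. -/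
lemma nsqD {v W : V → V} (hv : ContDiff ℝ ∞ v) (hW : ContDiff ℝ ∞ W) {G : ℝ} (hG : 0 ≤ G) {a : V}
    {ρ : ℝ} (hρ : 0 < ρ) (hb : ball a ρ ⊆ ball 0 1)
    (hg : ∀ z ∈ ball (0 : V) 1, ∀ i j, |pd j (fun y => v y i - W y i) z| ≤ √G) :
    ∀ z ∈ ball a ρ, nsq (fun y i => (v y i - W y i) - (v a i - W a i)) z ≤ 27 * G * ρ ^ 2 := by
  intro z hz
  have h : ∀ i, |(v z i - W z i) - (v a i - W a i)| ≤ 3 * √G * ρ := fun i =>
    Dbd (D := fun y => v y i - W y i) ((cd_comp hv i).sub (cd_comp hW i)) hρ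
      (fun x hx j => hg x (hb hx) i j) z hz
  unfold nsq
  calc ∑ i, ((v z i - W z i) - (v a i - W a i)) ^ 2 ≤ ∑ _i : Fin 3, (3 * √G * ρ) ^ 2 := by
        apply Finset.sum_le_sum
        intro i _
        rw [← sq_abs]
        exact pow_le_pow_left₀ (abs_nonneg _) (h i) 2
    _ = 27 * √G ^ 2 * ρ ^ 2 := by simp; ring
    _ = 27 * G * ρ ^ 2 := by rw [Real.sq_sqrt hG]

lemma vol_ball (a : V) {ρ : ℝ} (hρ : 0 < ρ) : (volume (ball a ρ)).toReal = 8 * ρ ^ 3 := by
  rw [Real.volume_pi_ball a hρ, ENNReal.toReal_ofReal (by positivity)]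
  simp
  ring

lemma int_const_ball (a : V) {ρ : ℝ} (hρ : 0 < ρ) (c : ℝ) :
    ∫ _z in ball a ρ, c = 8 * ρ ^ 3 * c := by
  rw [setIntegral_const, measureReal_def, vol_ball a hρ, smul_eq_mul]

lemma L4bd {v W : V → V} (hv : ContDiff ℝ ∞ v) (hW : ContDiff ℝ ∞ W) {a : V} {ρ E : ℝ}
    (hρ : 0 < ρ) (hE : 0 ≤ E) (h : ∀ z ∈ ball a ρ, nsq v z ≤ 2 * nsq W z + 2 * E) :
    √(L4 a ρ v) ≤ 3 * √(L4 a ρ W) + 9 * E * √(ρ ^ 3) := by
  have hL : 0 ≤ L4 a ρ W := by
    unfold L4
    exact integral_nonneg (fun _ => sq_nonneg _)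
  have h1 : L4 a ρ v ≤ 8 * L4 a ρ W + 64 * ρ ^ 3 * E ^ 2 := by
    have i1 := iob ((cont_nsq hW).pow 2) a ρ
    calc L4 a ρ v ≤ ∫ z in ball a ρ, (8 * nsq W z ^ 2 + 8 * E ^ 2) := by
          unfold L4
          apply setIntegral_mono_on (iob ((cont_nsq hv).pow 2) a ρ)
            (iob (((continuous_const.mul ((cont_nsq hW).pow 2)).add continuous_const)) a ρ)
            measurableSet_ball
          intro z hz
          have h2 := h z hz
          have h3 : nsq v z ^ 2 ≤ (2 * nsq W z + 2 * E) ^ 2 :=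
            pow_le_pow_left₀ (nsq_nonneg v z) h2 2
          show nsq v z ^ 2 ≤ 8 * nsq W z ^ 2 + 8 * E ^ 2
          nlinarith [sq_nonneg (nsq W z - E)]
      _ = (∫ z in ball a ρ, 8 * nsq W z ^ 2) + ∫ _z in ball a ρ, 8 * E ^ 2 :=
          integral_add (i1.const_mul 8) (iob (f := fun _ => 8 * E ^ 2) continuous_const a ρ)
      _ = 8 * L4 a ρ W + 64 * ρ ^ 3 * E ^ 2 := by
          rw [integral_const_mul, int_const_ball a hρ]
          unfold L4
          ring
  apply Real.sqrt_le_iff.2 ⟨by positivity, h1.trans ?_⟩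
  have e1 := Real.sq_sqrt hL
  have e2 := Real.sq_sqrt (show (0 : ℝ) ≤ ρ ^ 3 by positivity)
  have p1 : 0 ≤ √(L4 a ρ W) * (E * √(ρ ^ 3)) := by positivity
  have p2 : 0 ≤ ρ ^ 3 * E ^ 2 := by positivity
  have e3 : (3 * √(L4 a ρ W) + 9 * E * √(ρ ^ 3)) ^ 2 = 9 * √(L4 a ρ W) ^ 2
      + 54 * (√(L4 a ρ W) * (E * √(ρ ^ 3))) + 81 * E ^ 2 * √(ρ ^ 3) ^ 2 := by ring
  rw [e3, e1, e2]
  nlinarith

/-- The flux with a bounded field. -/
lemma fluxD {u W : V → V} (hu : ContDiff ℝ ∞ u) (hW : ContDiff ℝ ∞ W) {φ : V → ℝ}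
    (hφ : ContDiff ℝ ∞ φ) {a : V} {ρ : ℝ} (hρ : 0 < ρ) (h0 : ∀ z ∉ ball a ρ, φ z = 0)
    {B E : ℝ} (hB : ∀ z i, |pd i φ z| ≤ B) (hE : ∀ z ∈ ball a ρ, √(nsq u z) ≤ E) :
    |∫ z, nsq W z * adv u φ z| ≤ 3 * B * E * A2 a ρ W := by
  have hB0 : 0 ≤ B := (abs_nonneg _).trans (hB 0 0)
  have h1 : ∫ z, nsq W z * adv u φ z = ∫ z in ball a ρ, nsq W z * adv u φ z := by
    symm
    apply setIntegral_eq_integral_of_forall_compl_eq_zero
    intro z hz
    rw [adv_zero u hφ hρ h0 z hz, mul_zero]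
  rw [h1]
  calc |∫ z in ball a ρ, nsq W z * adv u φ z| ≤ ∫ z in ball a ρ, |nsq W z * adv u φ z| :=
        abs_integral_le_integral_abs
    _ ≤ ∫ z in ball a ρ, 3 * B * E * nsq W z := by
        apply setIntegral_mono_on (iob ((cont_nsq hW).mul (cont_adv hu hφ)).abs a ρ)
          (iob (continuous_const.mul (cont_nsq hW)) a ρ) measurableSet_ball
        intro z hz
        show |nsq W z * adv u φ z| ≤ 3 * B * E * nsq W z
        rw [abs_mul, abs_of_nonneg (nsq_nonneg W z)]
        have h2 := adv_le u φ z B (hB z)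
        have h3 : 3 * B * √(nsq u z) ≤ 3 * B * E :=
          mul_le_mul_of_nonneg_left (hE z hz) (by positivity)
        calc nsq W z * |adv u φ z| ≤ nsq W z * (3 * B * E) :=
              mul_le_mul_of_nonneg_left (h2.trans h3) (nsq_nonneg W z)
          _ = 3 * B * E * nsq W z := by ring
    _ = 3 * B * E * A2 a ρ W := integral_const_mul _ _

lemma intabs {W : V → V} (hW : ContDiff ℝ ∞ W) {φ : V → ℝ} (hφ : Continuous φ) {a : V} {ρ B : ℝ}
    (hρ : 0 < ρ) (h0 : ∀ z ∉ ball a ρ, φ z = 0) (hB : ∀ z, |φ z| ≤ B) :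
    ∫ z, |φ z| * √(nsq W z) ≤ B * (√(8 * ρ ^ 3) * √(A2 a ρ W)) := by
  have hB0 : 0 ≤ B := (abs_nonneg _).trans (hB 0)
  have hs : Continuous (fun z => √(nsq W z)) := (cont_nsq hW).sqrt
  have h1 : ∫ z, |φ z| * √(nsq W z) = ∫ z in ball a ρ, |φ z| * √(nsq W z) := by
    symm
    apply setIntegral_eq_integral_of_forall_compl_eq_zero
    intro z hz
    rw [h0 z hz, abs_zero, zero_mul]
  rw [h1]
  calc ∫ z in ball a ρ, |φ z| * √(nsq W z) ≤ ∫ z in ball a ρ, B * (1 * √(nsq W z)) := by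
        apply setIntegral_mono (iob (hφ.abs.mul hs) a ρ)
          (iob (continuous_const.mul (continuous_const.mul hs)) a ρ)
        intro z
        show |φ z| * √(nsq W z) ≤ B * (1 * √(nsq W z))
        rw [one_mul]
        exact mul_le_mul_of_nonneg_right (hB z) (Real.sqrt_nonneg _)
    _ = B * ∫ z in ball a ρ, 1 * √(nsq W z) := integral_const_mul _ _
    _ ≤ B * (√(8 * ρ ^ 3) * √(A2 a ρ W)) := by
        apply mul_le_mul_of_nonneg_left _ hB0
        have h2 := cs (μ := volume.restrict (ball a ρ)) (fun _ => (1 : ℝ)) (fun z => √(nsq W z))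
          (iob (continuous_const.pow 2) a ρ) (iob (hs.pow 2) a ρ)
          (iob (continuous_const.mul hs) a ρ)
        have h3 : ∫ z in ball a ρ, √(nsq W z) ^ 2 = A2 a ρ W := by
          unfold A2
          congr 1
          funext z
          exact Real.sq_sqrt (nsq_nonneg W z)
        have h4 : ∫ _z in ball a ρ, (1 : ℝ) ^ 2 = 8 * ρ ^ 3 := by
          rw [int_const_ball a hρ]
          ring
        rw [h3, h4] at h2
        exact (le_abs_self _).trans h2

end Pool.Agent.W699.ME
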