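import Pool.Agent.W699.ME.PK2a

/-! Project ME, part PK2: the constants, and one scale. -/

open MeasureTheory Set Metric
open scoped ContDiff

namespace Pool.Agent.W699.ME

open H459R3.NS W221.NS
open Pool.Agent.W386.MD (cd_comp cd_pd cont_comp cont_nsq cont_adv nsq_nonneg abs_comp_le adv_le cs
  iob hcs pd_zero adv_zero flux wt lap_sub' adv_sum int_sum L4_mono A2_mono sq_mono rr_pos rr_anti)

lemma num1 (k : ℕ) : (16 : ℝ) ^ k * rr k = 8 ^ k := by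
  unfold rr
  rw [← mul_pow]
  norm_num

lemma rr_cube (k : ℕ) : rr k ^ 3 = (1 / 8 : ℝ) ^ k := by
  unfold rr
  rw [← pow_mul, mul_comm k 3, pow_mul]
  norm_num

lemma rr_sq (k : ℕ) : rr k ^ 2 = (1 / 4 : ℝ) ^ k := by
  unfold rr
  rw [← pow_mul, mul_comm k 2, pow_mul]
  norm_num

lemma num2 (k : ℕ) (hk : 2 ≤ k) :
    (16 : ℝ) ^ k * (rr (k - 2) ^ 2 * √(rr (k - 2) ^ 3)) = 128 * √(2 ^ k) := by
  obtain ⟨m, rfl⟩ : ∃ m, k = m + 2 := ⟨k - 2, by omega⟩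
  rw [Nat.add_sub_cancel, rr_sq, rr_cube]
  have e1 : √((2 : ℝ) ^ (m + 2)) = 2 * √(2 ^ m) := by
    rw [pow_add, Real.sqrt_mul (by positivity)]
    have : √((2 : ℝ) ^ 2) = 2 := Real.sqrt_sq (by norm_num)
    rw [this, mul_comm]
  have e2 : (4 : ℝ) ^ m * √((1 / 8) ^ m) = √(2 ^ m) := by
    have h4 : (4 : ℝ) ^ m = √(16 ^ m) := by
      rw [show (16 : ℝ) ^ m = (4 ^ m) ^ 2 by rw [← pow_mul, mul_comm m 2, pow_mul]; norm_num,
        Real.sqrt_sq (by positivity)]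
    rw [h4, ← Real.sqrt_mul (by positivity), ← mul_pow]
    norm_num
  have e3 : (16 : ℝ) ^ (m + 2) * (1 / 4) ^ m = 256 * 4 ^ m := by
    rw [pow_add, mul_right_comm, ← mul_pow]
    norm_num
    ring
  rw [e1, ← e2, ← mul_assoc, e3]
  ring

lemma num3 (j : ℕ) : √((32 : ℝ) ^ j) * (rr j ^ 2 * √(rr j ^ 3)) = (1 / 2) ^ j := by
  rw [rr_sq, rr_cube]
  have h4 : (1 / 4 : ℝ) ^ j = √((1 / 16) ^ j) := by
    rw [show (1 / 16 : ℝ) ^ j = ((1 / 4) ^ j) ^ 2 by rw [← pow_mul, mul_comm j 2, pow_mul]; norm_num,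
      Real.sqrt_sq (by positivity)]
  rw [h4, ← Real.sqrt_mul (by positivity), ← mul_pow, ← Real.sqrt_mul (by positivity), ← mul_pow]
  rw [show (32 * (1 / 16 * (1 / 8)) : ℝ) ^ j = ((1 / 2) ^ j) ^ 2 by
    rw [← pow_mul, mul_comm j 2, pow_mul]; norm_num, Real.sqrt_sq (by positivity)]

lemma num4 (k : ℕ) : ∑ j ∈ Finset.Ico 3 (k - 2), (1 / 2 : ℝ) ^ j ≤ 2 := by
  refine le_trans (Finset.sum_le_sum_of_subset_of_nonneg (t := Finset.range (k - 2)) ?_ ?_)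
    (sum_geometric_two_le (k - 2))
  · intro j hj
    exact Finset.mem_range.2 (Finset.mem_Ico.1 hj).2
  · intro j _ _
    positivity

lemma num5 (k : ℕ) : (8 : ℝ) ^ k * √(8 * rr k ^ 3) ≤ 3 * √(8 ^ k) := by
  rw [rr_cube]
  have h8 : (8 : ℝ) ^ k = √(64 ^ k) := by
    rw [show (64 : ℝ) ^ k = (8 ^ k) ^ 2 by rw [← pow_mul, mul_comm k 2, pow_mul]; norm_num,
      Real.sqrt_sq (by positivity)]
  have h9 : (3 : ℝ) = √9 := by
    rw [show (9 : ℝ) = 3 ^ 2 by norm_num, Real.sqrt_sq (by norm_num)]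
  calc (8 : ℝ) ^ k * √(8 * (1 / 8) ^ k) = √(64 ^ k) * √(8 * (1 / 8) ^ k) := by rw [← h8]
    _ = √(64 ^ k * (8 * (1 / 8) ^ k)) := (Real.sqrt_mul (by positivity) _).symm
    _ = √(8 * 8 ^ k) := by
        congr 1
        rw [mul_left_comm, ← mul_pow]
        norm_num
    _ ≤ √(9 * 8 ^ k) := Real.sqrt_le_sqrt (by
        have : (0 : ℝ) < 8 ^ k := by positivity
        linarith)
    _ = √9 * √(8 ^ k) := Real.sqrt_mul (by norm_num) _
    _ = 3 * √(8 ^ k) := by rw [← h9]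

lemma rr_small {j : ℕ} : rr j ^ 2 * √(rr j ^ 3) ≤ 1 := by
  have h1 : rr j ^ 2 ≤ 1 := by
    rw [rr_sq]
    exact pow_le_one₀ (by norm_num) (by norm_num)
  have h2 : √(rr j ^ 3) ≤ 1 := by
    rw [rr_cube]
    exact Real.sqrt_le_one.2 (pow_le_one₀ (by norm_num) (by norm_num))
  exact mul_le_one₀ h1 (Real.sqrt_nonneg _) h2

/-- The term at scale `k`. -/
noncomputable def sk (G R : ℝ) (a : V) (W : V → V) (k : ℕ) : ℝ :=
  √(A2 a (rr k) W) * PS a W k + √G * (8 ^ k * A2 a (rr k) W)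
    + G * (√(A2 a (rr k) W) * (√(2 ^ k) + √(8 ^ k) * (2 ^ k * R)))

/-- The pressure part of one scale. -/
lemma press {C₁ M G R : ℝ} (hC₁ : 0 < C₁) (hM : 0 < M) (hG : 0 ≤ G) (hR : 0 ≤ R) {v W : V → V}
    (hW : ContDiff ℝ ∞ W) {a : V} {k : ℕ} (hk : 5 ≤ k)
    (hL : ∀ j, 2 ≤ j → √(L4 a (rr j) v) ≤ 3 * √(L4 a (rr j) W)
      + 243 * G * (rr j ^ 2 * √(rr j ^ 3)))
    {φ : V → ℝ} (hφ : Continuous φ) (h0 : ∀ z ∉ ball a (rr k), φ z = 0)
    (h8 : ∀ z, |φ z| ≤ M * 8 ^ k) (h8' : ∀ z, |φ z| ≤ M * 8 ^ k * (2 ^ k * R)) {I : ℝ}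
    (hI : |I| ≤ C₁ * (M * 16 ^ k * √(L4 a (rr (k - 2)) v) * √(A2 a (rr k) W)
            + (∑ j ∈ Finset.Ico 3 (k - 2), √(32 ^ j) * √(L4 a (rr j) v))
              * ∫ z, |φ z| * √(nsq W z))) :
    |I| ≤ 31104 * C₁ * M * sk G R a W k := by
  obtain ⟨A, hA⟩ : ∃ A, A = √(A2 a (rr k) W) := ⟨_, rfl⟩
  have hA0 : 0 ≤ A := hA ▸ Real.sqrt_nonneg _
  obtain ⟨J, hJ⟩ : ∃ J, J = ∫ z, |φ z| * √(nsq W z) := ⟨_, rfl⟩
  have hJ0 : 0 ≤ J := by
    rw [hJ]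
    exact integral_nonneg (fun z => mul_nonneg (abs_nonneg _) (Real.sqrt_nonneg _))
  have J1 : J ≤ 3 * M * √(8 ^ k) * A := by
    have := intabs hW hφ (rr_pos k) h0 h8
    rw [← hJ, ← hA] at this
    refine this.trans ?_
    calc M * 8 ^ k * (√(8 * rr k ^ 3) * A) = M * (8 ^ k * √(8 * rr k ^ 3)) * A := by ring
      _ ≤ M * (3 * √(8 ^ k)) * A :=
          mul_le_mul_of_nonneg_right (mul_le_mul_of_nonneg_left (num5 k) hM.le) hA0
      _ = 3 * M * √(8 ^ k) * A := by ring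
  have J2 : J ≤ 3 * M * √(8 ^ k) * (2 ^ k * R) * A := by
    have := intabs hW hφ (rr_pos k) h0 h8'
    rw [← hJ, ← hA] at this
    refine this.trans ?_
    calc M * 8 ^ k * (2 ^ k * R) * (√(8 * rr k ^ 3) * A)
        = M * (8 ^ k * √(8 * rr k ^ 3)) * (2 ^ k * R) * A := by ring
      _ ≤ M * (3 * √(8 ^ k)) * (2 ^ k * R) * A :=
          mul_le_mul_of_nonneg_right (mul_le_mul_of_nonneg_right
            (mul_le_mul_of_nonneg_left (num5 k) hM.le) (by positivity)) hA0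
      _ = 3 * M * √(8 ^ k) * (2 ^ k * R) * A := by ring
  rw [← hA, ← hJ] at hI
  -- near part
  have N1 : M * 16 ^ k * √(L4 a (rr (k - 2)) v) * A
      ≤ 3 * M * (A * (16 ^ k * √(L4 a (rr (k - 2)) W))) + 31104 * M * (G * (A * √(2 ^ k))) := by
    calc M * 16 ^ k * √(L4 a (rr (k - 2)) v) * A
        ≤ M * 16 ^ k * (3 * √(L4 a (rr (k - 2)) W)
          + 243 * G * (rr (k - 2) ^ 2 * √(rr (k - 2) ^ 3))) * A := by
            gcongr
            exact hL (k - 2) (by omega)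
      _ = 3 * M * (A * (16 ^ k * √(L4 a (rr (k - 2)) W)))
          + 243 * M * (G * (A * (16 ^ k * (rr (k - 2) ^ 2 * √(rr (k - 2) ^ 3))))) := by ring
      _ = _ := by rw [num2 k (by omega)]; ring
  -- far part
  obtain ⟨S1, hS1⟩ : ∃ s, s = ∑ j ∈ Finset.Ico 3 (k - 2), √(32 ^ j) * √(L4 a (rr j) W) := ⟨_, rfl⟩
  have hS0 : 0 ≤ S1 := by
    rw [hS1]
    exact Finset.sum_nonneg (fun _ _ => by positivity)
  have F0 : ∑ j ∈ Finset.Ico 3 (k - 2), √(32 ^ j) * √(L4 a (rr j) v) ≤ 3 * S1 + 486 * G := by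
    calc ∑ j ∈ Finset.Ico 3 (k - 2), √(32 ^ j) * √(L4 a (rr j) v)
        ≤ ∑ j ∈ Finset.Ico 3 (k - 2), (3 * (√(32 ^ j) * √(L4 a (rr j) W))
          + 243 * G * (1 / 2) ^ j) := by
          apply Finset.sum_le_sum
          intro j hj
          have hj3 := (Finset.mem_Ico.1 hj).1
          calc √(32 ^ j) * √(L4 a (rr j) v) ≤ √(32 ^ j) * (3 * √(L4 a (rr j) W)
                + 243 * G * (rr j ^ 2 * √(rr j ^ 3))) := by
                gcongr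
                exact hL j (by omega)
            _ = 3 * (√(32 ^ j) * √(L4 a (rr j) W))
                + 243 * G * (√(32 ^ j) * (rr j ^ 2 * √(rr j ^ 3))) := by ring
            _ = _ := by rw [num3]
      _ = 3 * S1 + 243 * G * ∑ j ∈ Finset.Ico 3 (k - 2), (1 / 2 : ℝ) ^ j := by
          rw [Finset.sum_add_distrib, ← Finset.mul_sum, ← Finset.mul_sum, hS1]
      _ ≤ 3 * S1 + 243 * G * 2 := by
          gcongr
          exact num4 k
      _ = 3 * S1 + 486 * G := by ring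
  have F1 : (∑ j ∈ Finset.Ico 3 (k - 2), √(32 ^ j) * √(L4 a (rr j) v)) * J
      ≤ 9 * M * (A * (S1 * √(8 ^ k))) + 1458 * M * (G * (A * (√(8 ^ k) * (2 ^ k * R)))) := by
    calc (∑ j ∈ Finset.Ico 3 (k - 2), √(32 ^ j) * √(L4 a (rr j) v)) * J
        ≤ (3 * S1 + 486 * G) * J := mul_le_mul_of_nonneg_right F0 hJ0
      _ = 3 * S1 * J + 486 * G * J := by ring
      _ ≤ 3 * S1 * (3 * M * √(8 ^ k) * A) + 486 * G * (3 * M * √(8 ^ k) * (2 ^ k * R) * A) := by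
          gcongr
      _ = _ := by ring
  have ePS : PS a W k = 16 ^ k * √(L4 a (rr (k - 2)) W) + S1 * √(8 ^ k) := by
    unfold PS
    rw [hS1, Finset.sum_mul]
    congr 1
    exact Finset.sum_congr rfl (fun j _ => by ring)
  have p0 : 0 ≤ A * (16 ^ k * √(L4 a (rr (k - 2)) W)) := by positivity
  have p1 : 0 ≤ A * (S1 * √(8 ^ k)) := by positivity
  have p2 : 0 ≤ G * (A * √(2 ^ k)) := by positivity
  have p3 : 0 ≤ G * (A * (√(8 ^ k) * (2 ^ k * R))) := by positivity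
  have p4 : 0 ≤ √G * (8 ^ k * A2 a (rr k) W) := by
    have : 0 ≤ A2 a (rr k) W := integral_nonneg (fun z => nsq_nonneg W z)
    positivity
  unfold sk
  rw [← hA, ePS]
  refine hI.trans ?_
  have key : M * 16 ^ k * √(L4 a (rr (k - 2)) v) * A
      + (∑ j ∈ Finset.Ico 3 (k - 2), √(32 ^ j) * √(L4 a (rr j) v)) * J
      ≤ 31104 * M * (A * (16 ^ k * √(L4 a (rr (k - 2)) W) + S1 * √(8 ^ k))
        + √G * (8 ^ k * A2 a (rr k) W) + G * (A * (√(2 ^ k) + √(8 ^ k) * (2 ^ k * R)))) := by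
    have q0 := mul_nonneg hM.le p0
    have q1 := mul_nonneg hM.le p1
    have q2 := mul_nonneg hM.le p2
    have q3 := mul_nonneg hM.le p3
    have q4 := mul_nonneg hM.le p4
    have e : 31104 * M * (A * (16 ^ k * √(L4 a (rr (k - 2)) W) + S1 * √(8 ^ k))
        + √G * (8 ^ k * A2 a (rr k) W) + G * (A * (√(2 ^ k) + √(8 ^ k) * (2 ^ k * R))))
        = 31104 * (M * (A * (16 ^ k * √(L4 a (rr (k - 2)) W))))
          + 31104 * (M * (A * (S1 * √(8 ^ k))))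
          + 31104 * (M * (√G * (8 ^ k * A2 a (rr k) W)))
          + 31104 * (M * (G * (A * √(2 ^ k))))
          + 31104 * (M * (G * (A * (√(8 ^ k) * (2 ^ k * R))))) := by ring
    rw [e]
    linarith
  calc C₁ * (M * 16 ^ k * √(L4 a (rr (k - 2)) v) * A
      + (∑ j ∈ Finset.Ico 3 (k - 2), √(32 ^ j) * √(L4 a (rr j) v)) * J)
      ≤ C₁ * (31104 * M * (A * (16 ^ k * √(L4 a (rr (k - 2)) W) + S1 * √(8 ^ k))
        + √G * (8 ^ k * A2 a (rr k) W) + G * (A * (√(2 ^ k) + √(8 ^ k) * (2 ^ k * R))))) :=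
        mul_le_mul_of_nonneg_left key hC₁.le
    _ = _ := by ring

/-- The gradient of the difference of the pressures. -/
lemma hessb {v W N : V → V} {P Q : V → ℝ} {G C₀ CA CU : ℝ} (hS : Slice2 v W N P G)
    (hC₀ : 0 < C₀) (hCA : 0 < CA) (hG : 0 ≤ G) (hCU : 0 ≤ CU)
    (hA : ∀ g : V → ℝ, ContDiff ℝ ∞ g → ∀ (a : V) (ρ : ℝ), 0 < ρ →
      (∀ x ∈ ball a ρ, lap g x = 0) → ∀ z ∈ ball a (ρ / 2), ∀ i,
      pd i g z ^ 2 ≤ CA * (ρ ^ 5)⁻¹ * ∫ x in ball a ρ, g x ^ 2 ∧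
      ∀ j, pd i (pd j g) z ^ 2 ≤ CA * (ρ ^ 7)⁻¹ * ∫ x in ball a ρ, g x ^ 2)
    {a : V} (ha : a ∈ ball (0 : V) (3 / 8)) {v' : V → V}
    (hL : √(L4 a (rr 3) v') ≤ CU * G) (hd' : ∀ x ∈ ball a (1 / 16), ddq v' x = ddq v x)
    (hQ : ContDiff ℝ ∞ Q) (hQe : ∀ x ∈ ball a (rr 3 / 2), -lap Q x = ddq v' x)
    (hQn : ∫ x in ball a (rr 3), Q x ^ 2 ≤ C₀ * L4 a (rr 3) v') :
    ∀ z ∈ ball a (rr 5), ∀ i, |pd i (fun y => P y - Q y) z|
      ≤ √(CA * ((1 / 16) ^ 5)⁻¹ * (2 * (1 + C₀ * CU ^ 2))) * G := by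
  have ha' : dist a 0 < 3 / 8 := mem_ball.1 ha
  have b1 : ball a (1 / 16) ⊆ ball (0 : V) 1 := by
    apply ball_subset_ball'
    linarith
  have b2 : ball a (1 / 16) ⊆ ball a (rr 3) := ball_subset_ball (by norm_num [rr])
  have hd : ContDiff ℝ ∞ (fun y => P y - Q y) := hS.sP.sub hQ
  have hharm : ∀ x ∈ ball a (1 / 16), lap (fun y => P y - Q y) x = 0 := by
    intro x hx
    rw [lap_sub' hS.sP hQ]
    have h1 := hS.eqP x (b1 hx)
    have h2 := hQe x (by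
      have : rr 3 / 2 = 1 / 16 := by norm_num [rr]
      rw [this]
      exact hx)
    have h3 := hd' x hx
    linarith
  have h3 : ∫ x in ball a (1 / 16), (P x - Q x) ^ 2 ≤ 2 * (1 + C₀ * CU ^ 2) * G ^ 2 := by
    have i1 := iob (hS.sP.continuous.pow 2) a (1 / 16)
    have i2 := iob (hQ.continuous.pow 2) a (1 / 16)
    have h4 : ∫ x in ball a (1 / 16), (P x - Q x) ^ 2
        ≤ ∫ x in ball a (1 / 16), (2 * P x ^ 2 + 2 * Q x ^ 2) := by
      apply setIntegral_mono (iob (hd.continuous.pow 2) a _) ((i1.const_mul 2).add (i2.const_mul 2))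
      intro x
      show (P x - Q x) ^ 2 ≤ 2 * P x ^ 2 + 2 * Q x ^ 2
      nlinarith [sq_nonneg (P x + Q x)]
    have h5 : ∫ x in ball a (1 / 16), (2 * P x ^ 2 + 2 * Q x ^ 2)
        = 2 * (∫ x in ball a (1 / 16), P x ^ 2) + 2 * (∫ x in ball a (1 / 16), Q x ^ 2) := by
      rw [← integral_const_mul, ← integral_const_mul]
      exact integral_add (i1.const_mul 2) (i2.const_mul 2)
    have h6 : ∫ x in ball a (1 / 16), P x ^ 2 ≤ G ^ 2 :=
      (sq_mono hS.sP.continuous b1).trans hS.nP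
    have h7 : ∫ x in ball a (1 / 16), Q x ^ 2 ≤ C₀ * (CU * G) ^ 2 := by
      refine (sq_mono hQ.continuous b2).trans (hQn.trans ?_)
      apply mul_le_mul_of_nonneg_left _ hC₀.le
      have := Real.sqrt_le_left (x := L4 a (rr 3) v') (mul_nonneg hCU hG)
      exact this.1 hL
    nlinarith
  intro z hz i
  have hz' : z ∈ ball a (1 / 16 / 2) := by
    have : rr 5 = 1 / 16 / 2 := by norm_num [rr]
    rwa [this] at hz
  have h10 := (hA _ hd a (1 / 16) (by norm_num) hharm z hz' i).1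
  apply abs_le_of_sq_le_sq _ (mul_nonneg (Real.sqrt_nonneg _) hG)
  rw [mul_pow, Real.sq_sqrt (by positivity)]
  refine h10.trans ?_
  calc CA * ((1 / 16) ^ 5)⁻¹ * ∫ x in ball a (1 / 16), (P x - Q x) ^ 2
      ≤ CA * ((1 / 16) ^ 5)⁻¹ * (2 * (1 + C₀ * CU ^ 2) * G ^ 2) :=
        mul_le_mul_of_nonneg_left h3 (by positivity)
    _ = CA * ((1 / 16) ^ 5)⁻¹ * (2 * (1 + C₀ * CU ^ 2)) * G ^ 2 := by ring

end Pool.Agent.W699.ME
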